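import Pool.Agent.FS.LightPairs.Count

/-! Classes of posets that satisfy the hypothesis of the hand-in `LightPairs`. -/

namespace Pool.Agent.FS.LightPairs

open Set

/-- The hypothesis of the hand-in. -/
def Hyp (X : Type) [Fintype X] [PartialOrder X] : Prop :=
  ∀ L : X ≃ Fin (Fintype.card X), StrictMono (⇑L) →
    (∀ p q, Inc p q → Light p q → L q < L p) →
    ∀ a b c z, Inc a b → Inc b c → Inc a c → Inc b z →
      ((a < z ∧ c < z) ∨ (z < a ∧ z < c)) → ¬ (L a < L b ∧ L b < L c)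

variable {X : Type} [Fintype X] [PartialOrder X]

omit [Fintype X] in
theorem inc_of {b c w : X} (i : Inc b c) (h1 : w < c) (h2 : ¬ w < b) : Inc b w :=
  ⟨fun h => i.1 (h.trans h1.le), fun h => h2 (lt_of_le_of_ne h fun h3 => i.1 (h3 ▸ h1.le))⟩

omit [Fintype X] in
theorem inc_of' {b c w : X} (i : Inc b c) (h1 : c < w) (h2 : ¬ b < w) : Inc b w :=
  ⟨fun h => h2 (lt_of_le_of_ne h fun h3 => i.2 (h3 ▸ h1.le)), fun h => i.2 (h1.le.trans h)⟩

/-- No induced 2+2, Y+1, dual Y+1. -/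
theorem hyp_Y (h22 : ∀ a b c d : X, a < b → c < d → ¬ (Inc a c ∧ Inc a d ∧ Inc b c ∧ Inc b d))
    (hY : ∀ a a' c z v : X, Inc a a' → a < c → a' < c → c < z →
      ¬ (Inc v a ∧ Inc v a' ∧ Inc v c ∧ Inc v z))
    (hY' : ∀ a a' c z v : X, Inc a a' → c < a → c < a' → z < c →
      ¬ (Inc v a ∧ Inc v a' ∧ Inc v c ∧ Inc v z)) : Hyp X := by
  rintro L _ hL a b c z i1 i2 _ i4 (⟨_, h2⟩ | ⟨h1, _⟩) ⟨l1, l2⟩
  · refine lt_asymm l2 (hL b c i2 (Or.inl ⟨fun t ht => ?_, fun s hs t ht hst => ?_⟩))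
    · by_contra hc
      have j1 := inc_of' i2.symm ht hc
      exact h22 b t c z ht h2 ⟨i2, i4, j1.symm,
        fun h => i4.1 (ht.le.trans h), fun h => j1.1 (h2.le.trans h)⟩
    · by_contra hc
      push Not at hc
      exact hY s t c z b hc hs.1 ht.1 h2 ⟨inc_of i2 hs.1 hs.2, inc_of i2 ht.1 ht.2, i2, i4⟩
  · refine lt_asymm l1 (hL a b i1 (Or.inr ⟨fun t ht => ?_, fun s hs t ht hst => ?_⟩))
    · by_contra hc
      have j1 := inc_of i1 ht hc
      exact h22 t b z a ht h1 ⟨⟨fun h => j1.2 (h.trans h1.le), fun h => i4.2 (h.trans ht.le)⟩,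
        j1.symm, i4, i1.symm⟩
    · by_contra hc
      push Not at hc
      exact hY' s t a z b hc hs.1 ht.1 h1
        ⟨inc_of' i1.symm hs.1 hs.2, inc_of' i1.symm ht.1 ht.2, i1.symm, i4⟩

/-- No induced 3+1, V+2, Λ+2. -/
theorem hyp_V (h31 : ∀ a c z v : X, a < c → c < z → ¬ (Inc v a ∧ Inc v c ∧ Inc v z))
    (hV : ∀ b s t c z : X, b < s → b < t → Inc s t → c < z →
      ¬ (Inc b c ∧ Inc b z ∧ Inc s c ∧ Inc s z ∧ Inc t c ∧ Inc t z))
    (hV' : ∀ b s t c z : X, s < b → t < b → Inc s t → c < z →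
      ¬ (Inc b c ∧ Inc b z ∧ Inc s c ∧ Inc s z ∧ Inc t c ∧ Inc t z)) : Hyp X := by
  rintro L _ hL a b c z i1 i2 _ i4 (⟨_, h2⟩ | ⟨h1, _⟩) ⟨l1, l2⟩
  · refine lt_asymm l2 (hL b c i2 (Or.inr ⟨fun t ht => ?_, fun s hs t ht hst => ?_⟩))
    · by_contra hc
      exact h31 t c z b ht h2 ⟨inc_of i2 ht hc, i2, i4⟩
    · by_contra hc
      push Not at hc
      have j1 := inc_of' i2.symm hs.1 hs.2
      have j2 := inc_of' i2.symm ht.1 ht.2
      exact hV b s t c z hs.1 ht.1 hc h2 ⟨i2, i4, j1.symm,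
        ⟨fun h => i4.1 (hs.1.le.trans h), fun h => j1.1 (h2.le.trans h)⟩, j2.symm,
        ⟨fun h => i4.1 (ht.1.le.trans h), fun h => j2.1 (h2.le.trans h)⟩⟩
  · refine lt_asymm l1 (hL a b i1 (Or.inl ⟨fun t ht => ?_, fun s hs t ht hst => ?_⟩))
    · by_contra hc
      exact h31 z a t b h1 ht ⟨i4, i1.symm, inc_of' i1.symm ht hc⟩
    · by_contra hc
      push Not at hc
      have j1 := inc_of i1 hs.1 hs.2
      have j2 := inc_of i1 ht.1 ht.2
      exact hV' b s t z a hs.1 ht.1 hc h1 ⟨i4, i1.symm,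
        ⟨fun h => j1.2 (h.trans h1.le), fun h => i4.2 (h.trans hs.1.le)⟩, j1.symm,
        ⟨fun h => j2.2 (h.trans h1.le), fun h => i4.2 (h.trans ht.1.le)⟩, j2.symm⟩

/-- The part of admissibility that is used for unit intervals. -/
structure Adm {X : Type} [PartialOrder X] (M : X → X → Prop) : Prop where
  total : ∀ x y, x ≠ y → M x y ∨ M y x
  ta : ∀ p q, Inc p q → M p q → (∀ z, p < z → q < z) →
    ∃ a b, a ≠ b ∧ (a < q ∧ ¬ a < p) ∧ (b < q ∧ ¬ b < p)
  tb : ∀ p q, Inc p q → M p q → (∀ w, w < q → w < p) →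
    ∃ a b, a ≠ b ∧ (p < a ∧ ¬ q < a) ∧ (p < b ∧ ¬ q < b)

theorem adm (L : X ≃ Fin (Fintype.card X)) (hL : ∀ p q, Inc p q → Light p q → L q < L p) :
    Adm (fun x y : X => L x < L y) := by
  refine ⟨fun x y hxy => lt_or_gt_of_ne fun h => hxy (L.injective h), ?_, ?_⟩
  · intro p q hi hM hU
    by_contra hc
    exact lt_asymm hM (hL p q hi (Or.inl ⟨hU, fun s hs t ht hst =>
      (hc ⟨s, t, hst, hs, ht⟩).elim⟩))
  · intro p q hi hM hU
    by_contra hc
    exact lt_asymm hM (hL p q hi (Or.inr ⟨hU, fun s hs t ht hst =>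
      (hc ⟨s, t, hst, hs, ht⟩).elim⟩))

theorem rep_iff {I J : Set ℝ} {s t : ℝ} (h1 : Ioo s (s + 1) ⊆ I) (h2 : I ⊆ Icc s (s + 1))
    (h3 : Ioo t (t + 1) ⊆ J) (h4 : J ⊆ Icc t (t + 1)) :
    (∀ p ∈ I, ∀ q ∈ J, p < q) ↔ s + 1 < t ∨ (s + 1 = t ∧ ¬ (s + 1 ∈ I ∧ t ∈ J)) := by
  constructor
  · intro h
    have hle : s + 1 ≤ t := by
      by_contra hc
      push Not at hc
      have m1 := le_max_left s t
      have m2 := le_max_right s t
      have m3 : max s t < s + 1 := max_lt (by linarith) hc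
      have := h ((max s t + s + 1) / 2) (h1 ⟨by linarith, by linarith⟩)
        (min ((max s t + s + 1) / 2) (t + 1 / 2))
        (h3 ⟨lt_min (by linarith) (by linarith), lt_of_le_of_lt (min_le_right _ _) (by linarith)⟩)
      exact absurd (min_le_left _ _) (not_le.2 this)
    rcases hle.lt_or_eq with h5 | h5
    · exact Or.inl h5
    · refine Or.inr ⟨h5, fun hh => ?_⟩
      have := h _ hh.1 _ hh.2
      linarith
  · rintro (h | ⟨h, hh⟩) p hp q hq
    · have := (h2 hp).2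
      have := (h4 hq).1
      linarith
    · have a1 := (h2 hp).2
      have a2 := (h4 hq).1
      by_contra hc
      have b1 : p = s + 1 := by linarith
      have b2 : q = t := by linarith
      exact hh ⟨b1 ▸ hp, b2 ▸ hq⟩

variable {M : X → X → Prop} {t : X → ℝ} {l r : X → Prop}

theorem desc_r (h : Adm M)
    (rep : ∀ x y, x < y ↔ t x + 1 < t y ∨ (t x + 1 = t y ∧ ¬ (r x ∧ l y))) :
    ¬ ∃ a b, a ≠ b ∧ t a = t b ∧ r a ∧ r b := by
  rintro ⟨a0, b0, h0⟩
  obtain ⟨a, ⟨b, hab, ht, ha, hb⟩, hmin⟩ := Set.exists_min_image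
    {a | ∃ b, a ≠ b ∧ t a = t b ∧ r a ∧ r b} t (toFinite _) ⟨a0, b0, h0⟩
  have key : ∀ p q, p ≠ q → t p = t a → t q = t a → r p → r q → ¬ M p q := by
    intro p q hpq hp hq rp rq hM
    have i1 : Inc p q := by
      constructor <;> intro hh
      · rcases (rep _ _).1 (lt_of_le_of_ne hh hpq) with h1 | ⟨h1, _⟩ <;> linarith
      · rcases (rep _ _).1 (lt_of_le_of_ne hh hpq.symm) with h1 | ⟨h1, _⟩ <;> linarith
    obtain ⟨c, d, hcd, hc, hd⟩ := h.ta p q i1 hM fun z hz => by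
      rw [rep] at hz ⊢
      rw [hq]
      rw [hp] at hz
      tauto
    have step : ∀ c, c < q ∧ ¬ c < p → t c + 1 = t a ∧ r c := by
      intro c hc
      rw [rep, rep, hp, hq] at hc
      tauto
    have := hmin c ⟨d, hcd, by linarith [(step c hc).1, (step d hd).1], (step c hc).2,
      (step d hd).2⟩
    linarith [(step c hc).1]
  rcases h.total a b hab with h1 | h1
  · exact key a b hab rfl ht.symm ha hb h1
  · exact key b a hab.symm ht.symm rfl hb ha h1

theorem desc_l (h : Adm M)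
    (rep : ∀ x y, x < y ↔ t x + 1 < t y ∨ (t x + 1 = t y ∧ ¬ (r x ∧ l y))) :
    ¬ ∃ a b, a ≠ b ∧ t a = t b ∧ l a ∧ l b := by
  rintro ⟨a0, b0, h0⟩
  obtain ⟨a, ⟨b, hab, ht, ha, hb⟩, hmax⟩ := Set.exists_max_image
    {a | ∃ b, a ≠ b ∧ t a = t b ∧ l a ∧ l b} t (toFinite _) ⟨a0, b0, h0⟩
  have key : ∀ p q, p ≠ q → t p = t a → t q = t a → l p → l q → ¬ M p q := by
    intro p q hpq hp hq rp rq hM
    have i1 : Inc p q := by
      constructor <;> intro hh
      · rcases (rep _ _).1 (lt_of_le_of_ne hh hpq) with h1 | ⟨h1, _⟩ <;> linarith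
      · rcases (rep _ _).1 (lt_of_le_of_ne hh hpq.symm) with h1 | ⟨h1, _⟩ <;> linarith
    obtain ⟨c, d, hcd, hc, hd⟩ := h.tb p q i1 hM fun z hz => by
      rw [rep] at hz ⊢
      rw [hp]
      rw [hq] at hz
      tauto
    have step : ∀ c, p < c ∧ ¬ q < c → t a + 1 = t c ∧ l c := by
      intro c hc
      rw [rep, rep, hp, hq] at hc
      tauto
    have := hmax c ⟨d, hcd, by linarith [(step c hc).1, (step d hd).1], (step c hc).2,
      (step d hd).2⟩
    linarith [(step c hc).1]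
  rcases h.total a b hab with h1 | h1
  · exact key a b hab rfl ht.symm ha hb h1
  · exact key b a hab.symm ht.symm rfl hb ha h1

theorem between (h : Adm M)
    (rep : ∀ x y, x < y ↔ t x + 1 < t y ∨ (t x + 1 = t y ∧ ¬ (r x ∧ l y)))
    (y z v : X) (hyz : y < z) (i1 : Inc v y) (i2 : Inc v z) : M y v ∧ M v z := by
  have le : ∀ x y : X, x < y → t x + 1 ≤ t y := fun x y hxy => by
    rcases (rep _ _).1 hxy with h1 | ⟨h1, _⟩ <;> linarith
  have ge : ∀ x y : X, ¬ x < y → t y ≤ t x + 1 := fun x y hxy => by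
    by_contra hc
    exact hxy ((rep _ _).2 (Or.inl (not_le.1 hc)))
  have eq : ∀ x y : X, ¬ x < y → t x + 1 = t y → r x ∧ l y := fun x y hxy he => by
    by_contra hc
    exact hxy ((rep _ _).2 (Or.inr ⟨he, hc⟩))
  have nvz : ¬ v < z := fun hh => i2.1 hh.le
  have nyv : ¬ y < v := fun hh => i1.2 hh.le
  have a1 := le y z hyz
  have a2 := ge v z nvz
  have a3 := ge y v nyv
  constructor
  · refine (h.total y v i1.ne.symm).resolve_right fun hM => ?_
    obtain ⟨c, d, hcd, hc, hd⟩ := h.ta v y i1 hM fun b hb => by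
      have b1 := le v b hb
      by_contra hc
      have b2 := ge y b hc
      have e1 := eq y b hc (by linarith)
      have e2 := eq v z nvz (by linarith)
      rcases (rep _ _).1 hb with h1 | ⟨_, h1⟩
      · linarith
      · exact h1 ⟨e2.1, e1.2⟩
    have step : ∀ c, c < y ∧ ¬ c < v → t c + 1 = t v ∧ r c := by
      intro c hc
      have c1 := le c y hc.1
      have c2 := ge c v hc.2
      have c3 : t c + 1 = t v := by linarith
      exact ⟨c3, (eq c v hc.2 c3).1⟩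
    exact desc_r h rep ⟨c, d, hcd, by linarith [(step c hc).1, (step d hd).1], (step c hc).2,
      (step d hd).2⟩
  · refine (h.total v z i2.ne).resolve_right fun hM => ?_
    obtain ⟨c, d, hcd, hc, hd⟩ := h.tb z v i2.symm hM fun b hb => by
      have b1 := le b v hb
      by_contra hc
      have b2 := ge b z hc
      have e1 := eq b z hc (by linarith)
      have e2 := eq y v nyv (by linarith)
      rcases (rep _ _).1 hb with h1 | ⟨_, h1⟩
      · linarith
      · exact h1 ⟨e1.1, e2.2⟩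
    have step : ∀ c, z < c ∧ ¬ v < c → t v + 1 = t c ∧ l c := by
      intro c hc
      have c1 := le z c hc.1
      have c2 := ge v c hc.2
      have c3 : t v + 1 = t c := by linarith
      exact ⟨c3, (eq v c hc.2 c3).2⟩
    exact desc_l h rep ⟨c, d, hcd, by linarith [(step c hc).1, (step d hd).1], (step c hc).2,
      (step d hd).2⟩

/-- Unit intervals, each open, closed or half-open. -/
theorem hyp_unit (I : X → Set ℝ)
    (hI : ∀ x, ∃ t : ℝ, Set.Ioo t (t + 1) ⊆ I x ∧ I x ⊆ Set.Icc t (t + 1))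
    (hlt : ∀ x y, x < y ↔ ∀ p ∈ I x, ∀ q ∈ I y, p < q) : Hyp X := by
  choose t h1 h2 using hI
  have rep : ∀ x y, x < y ↔ t x + 1 < t y ∨ (t x + 1 = t y ∧ ¬ (t x + 1 ∈ I x ∧ t y ∈ I y)) :=
    fun x y => (hlt x y).trans (rep_iff (h1 x) (h2 x) (h1 y) (h2 y))
  rintro L _ hL a b c z i1 i2 _ i4 (⟨_, h4⟩ | ⟨h3, _⟩) ⟨l1, l2⟩
  · exact lt_asymm l2 (between (l := fun x => t x ∈ I x) (r := fun x => t x + 1 ∈ I x)
      (adm L hL) rep c z b h4 i2 i4).1
  · exact lt_asymm l1 (between (l := fun x => t x ∈ I x) (r := fun x => t x + 1 ∈ I x)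
      (adm L hL) rep z a b h3 i4 i1.symm).2

end Pool.Agent.FS.LightPairs
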