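import Pool.Agent.FS.LightPairs.Maj

/-! The separator count along the majority order. -/

namespace Pool.Agent.FS.LightPairs

open Finset

variable {X : Type} [Fintype X] [PartialOrder X] {M : X → X → Prop}

theorem exists_rank (h : Maj M) : ∃ ρ : X → ℕ, (∀ s t, M s t ↔ ρ s < ρ t) ∧
    (∀ s, ρ s < Fintype.card X) ∧ Function.Injective ρ ∧
    ∀ k, k < Fintype.card X → ∃ s, ρ s = k := by
  classical
  let ρ : X → ℕ := fun x => (univ.filter fun s => M s x).card
  have h1 : ∀ s t, M s t → ρ s < ρ t := by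
    intro s t hst
    refine card_lt_card ⟨fun w hw => ?_, fun hh => ?_⟩
    · simp only [mem_filter, mem_univ, true_and] at hw ⊢
      exact h.trans _ _ _ hw hst
    · have : s ∈ univ.filter fun w => M w s := hh (by simpa using hst)
      exact h.irrefl s (by simpa using this)
  have h2 : Function.Injective ρ := by
    intro s t hst
    by_contra hne
    rcases h.total s t hne with h3 | h3 <;> have := h1 _ _ h3 <;> omega
  have h3 : ∀ s, ρ s < Fintype.card X := by
    intro s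
    refine card_lt_card ⟨subset_univ _, fun hh => ?_⟩
    have : s ∈ univ.filter fun w => M w s := hh (mem_univ s)
    exact h.irrefl s (by simpa using this)
  refine ⟨ρ, fun s t => ⟨h1 s t, fun hst => ?_⟩, h3, h2, fun k hk => ?_⟩
  · rcases h.total s t (by rintro rfl; omega) with h4 | h4
    · exact h4
    · have := h1 _ _ h4
      omega
  · have h4 : univ.image ρ = range (Fintype.card X) := by
      refine eq_of_subset_of_card_le (fun k hk => ?_) ?_
      · obtain ⟨s, _, rfl⟩ := mem_image.1 hk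
        exact mem_range.2 (h3 s)
      · rw [card_image_of_injective _ h2, card_range, card_univ]
    have : k ∈ univ.image ρ := h4 ▸ mem_range.2 hk
    obtain ⟨s, _, hs⟩ := mem_image.1 this
    exact ⟨s, hs⟩

theorem count (h : Maj M)
    (G : ∀ u v y z, u < z → y < z → Inc u v → Inc v y → Inc u y → Inc v z → M u v → ¬ M v y)
    (G' : ∀ y u v w, w < y → w < v → Inc y u → Inc u v → Inc y v → Inc u w → M u v → ¬ M y u)
    (hab : ∃ a b : X, Inc a b) : False := by
  classical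
  obtain ⟨ρ, hM, hlt, hinj, hsurj⟩ := exists_rank h
  set n := Fintype.card X with hn
  have mono : ∀ s t : X, s < t → ρ s < ρ t := fun s t hst => (hM s t).1 (h.ext s t hst)
  have mono' : ∀ s t : X, s ≤ t → ρ s ≤ ρ t := fun s t hst => by
    rcases hst.lt_or_eq with h1 | rfl
    · exact (mono s t h1).le
    · exact le_rfl
  let A : ℕ → Finset X := fun k =>
    univ.filter fun z => (∀ s, s < z → ρ s < k) ∧ (k = 0 ∨ ∃ s, s < z ∧ ρ s + 1 = k)
  let B : ℕ → Finset X := fun k =>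
    univ.filter fun w => (∀ t, w < t → k ≤ ρ t) ∧ (k = n ∨ ∃ t, w < t ∧ ρ t = k)
  have mA : ∀ k z, z ∈ A k ↔ (∀ s, s < z → ρ s < k) ∧ (k = 0 ∨ ∃ s, s < z ∧ ρ s + 1 = k) :=
    fun k z => by simp [A]
  have mB : ∀ k w, w ∈ B k ↔ (∀ t, w < t → k ≤ ρ t) ∧ (k = n ∨ ∃ t, w < t ∧ ρ t = k) :=
    fun k z => by simp [B]
  have sA : ∑ k ∈ range (n + 1), (A k).card ≤ n := by
    rw [← card_biUnion]
    · exact card_le_univ _
    · intro k _ l _ hkl
      refine disjoint_left.2 fun z hk hl => ?_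
      rw [mA] at hk hl
      obtain ⟨hk, h1 | ⟨s, hs, h1⟩⟩ := hk <;> obtain ⟨hl, h2 | ⟨t, ht, h2⟩⟩ := hl
      · omega
      · have := hk t ht; omega
      · have := hl s hs; omega
      · have := hk t ht; have := hl s hs; omega
  have sB : ∑ k ∈ range (n + 1), (B k).card ≤ n := by
    rw [← card_biUnion]
    · exact card_le_univ _
    · intro k _ l _ hkl
      refine disjoint_left.2 fun z hk hl => ?_
      rw [mB] at hk hl
      obtain ⟨hk, h1 | ⟨s, hs, h1⟩⟩ := hk <;> obtain ⟨hl, h2 | ⟨t, ht, h2⟩⟩ := hl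
      · omega
      · have := hk t ht; have := hlt t; omega
      · have := hl s hs; have := hlt s; omega
      · have := hk t ht; have := hl s hs; omega
  have two : ∀ (S : Finset X) (a b : X), a ≠ b → a ∈ S → b ∈ S → 2 ≤ S.card :=
    fun S a b hab ha hb => one_lt_card.2 ⟨a, ha, b, hb, hab⟩
  have one : ∀ (S : Finset X) (a : X), a ∈ S → 1 ≤ S.card :=
    fun S a ha => card_pos.2 ⟨a, ha⟩
  -- the least element that has an incomparable partner
  obtain ⟨a0, b0, hab0⟩ := hab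
  obtain ⟨a, ⟨b1, hb1⟩, hamin⟩ := Set.exists_min_image {x : X | ∃ y, Inc x y} ρ
    (Set.toFinite _) ⟨a0, b0, hab0⟩
  obtain ⟨y, hy, hymin⟩ := Set.exists_min_image {x : X | Inc a x} ρ (Set.toFinite _) ⟨b1, hb1⟩
  have hy : Inc a y := hy
  have hay : ρ a < ρ y :=
    lt_of_le_of_ne (hamin y ⟨a, hy.symm⟩) fun hh => hy.ne (hinj hh)
  have hn2 : 2 ≤ n := by have := hlt y; omega
  have base : ∀ k ∈ range (n + 1),
      2 ≤ (A k).card + (B k).card + ((if k = 0 then 1 else 0) + if k = n then 1 else 0) := by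
    intro k hk
    have hk := mem_range.1 hk
    by_cases hk0 : k = 0
    · obtain ⟨s, hs⟩ := hsurj 0 (by omega)
      have := one (A k) s ((mA _ _).2 ⟨fun t ht => by have := mono t s ht; omega, Or.inl hk0⟩)
      rw [if_pos hk0]
      omega
    by_cases hkn : k = n
    · obtain ⟨s, hs⟩ := hsurj (n - 1) (by omega)
      have := one (B k) s ((mB _ _).2
        ⟨fun t ht => by have := mono s t ht; omega, Or.inl hkn⟩)
      rw [if_pos hkn]
      omega
    obtain ⟨u, hu⟩ := hsurj (k - 1) (by omega)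
    obtain ⟨v, hv⟩ := hsurj k (by omega)
    by_cases huv : u < v
    · have h1 := one (A k) v ((mA _ _).2
        ⟨fun t ht => by have := mono t v ht; omega, Or.inr ⟨u, huv, by omega⟩⟩)
      have h2 := one (B k) u ((mB _ _).2
        ⟨fun t ht => by have := mono u t ht; omega, Or.inr ⟨v, huv, hv⟩⟩)
      omega
    have hi : Inc u v := ⟨fun hh => huv (lt_of_le_of_ne hh (by rintro rfl; omega)),
      fun hh => by have := mono' _ _ hh; omega⟩
    have hMuv : M u v := (hM u v).2 (by omega)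
    have ZA : ∀ z, (u < z ∧ ¬ v < z) → (∀ s, (u < s ∧ ¬ v < s) → ¬ s < z) → z ∈ A k := by
      rintro z ⟨h1, h2⟩ hm
      refine (mA _ _).2 ⟨fun s hs => ?_, Or.inr ⟨u, h1, by omega⟩⟩
      by_contra hc
      have hsv : s ≠ v := fun hh => h2 (hh ▸ hs)
      have h3 : ρ s ≠ ρ v := fun hh => hsv (hinj hh)
      have i1 : Inc v s := ⟨fun hh => h2 (lt_of_le_of_lt hh hs),
        fun hh => by have := mono' _ _ hh; omega⟩
      have i2 : Inc v z := ⟨fun hh => h2 (lt_of_le_of_ne hh fun h4 => huv (h4 ▸ h1)),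
        fun hh => huv (lt_of_lt_of_le h1 hh)⟩
      have i3 : Inc u s := ⟨fun hh => hm s ⟨lt_of_le_of_ne hh (by rintro rfl; omega),
        fun h4 => i1.1 h4.le⟩ hs, fun hh => by have := mono' _ _ hh; omega⟩
      exact G u v s z h1 hs hi i1 i3 i2 hMuv ((hM _ _).2 (by omega))
    have WB : ∀ w, (w < v ∧ ¬ w < u) → (∀ s, (s < v ∧ ¬ s < u) → ¬ w < s) → w ∈ B k := by
      rintro w ⟨h1, h2⟩ hm
      refine (mB _ _).2 ⟨fun s hs => ?_, Or.inr ⟨v, h1, hv⟩⟩
      by_contra hc
      have hsu : s ≠ u := fun hh => h2 (hh ▸ hs)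
      have h3 : ρ s ≠ ρ u := fun hh => hsu (hinj hh)
      have i1 : Inc s u := ⟨fun hh => h2 (lt_of_lt_of_le hs hh),
        fun hh => by have := mono' _ _ hh; omega⟩
      have i2 : Inc u w := ⟨fun hh => huv (lt_of_le_of_lt hh h1),
        fun hh => h2 (lt_of_le_of_ne hh fun h4 => huv (h4 ▸ h1))⟩
      have i3 : Inc s v := ⟨fun hh => hm s ⟨lt_of_le_of_ne hh (by rintro rfl; omega),
        fun h4 => i1.1 h4.le⟩ hs, fun hh => by have := mono' _ _ hh; omega⟩
      exact G' s u v w hs h1 i1 hi i3 i2 hMuv ((hM _ _).2 (by omega))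
    have exZ : ∀ z, (u < z ∧ ¬ v < z) → ∃ c, c ≤ z ∧ (u < c ∧ ¬ v < c) ∧ c ∈ A k := by
      intro z hz
      obtain ⟨c, ⟨hcz, hc⟩, hm⟩ := (wellFounded_lt (α := X)).has_min
        {c | c ≤ z ∧ (u < c ∧ ¬ v < c)} ⟨z, le_rfl, hz⟩
      exact ⟨c, hcz, hc, ZA c hc fun s hs hsc => hm s ⟨hsc.le.trans hcz, hs⟩ hsc⟩
    have exW : ∀ w, (w < v ∧ ¬ w < u) → ∃ c, w ≤ c ∧ (c < v ∧ ¬ c < u) ∧ c ∈ B k := by
      intro w hw
      obtain ⟨c, ⟨hcz, hc⟩, hm⟩ := (wellFounded_gt (α := X)).has_min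
        {c | w ≤ c ∧ (c < v ∧ ¬ c < u)} ⟨w, le_rfl, hw⟩
      exact ⟨c, hcz, hc, WB c hc fun s hs hsc => hm s ⟨hcz.trans hsc.le, hs⟩ hsc⟩
    by_cases hW : ∀ w, w < v → w < u
    · have h0 := h.sa u v v hi hMuv hW (Or.inr rfl)
      push Not at h0
      obtain ⟨z, hz1, hz2, _⟩ := h0
      obtain ⟨c, _, hc, hcA⟩ := exZ z ⟨hz1, hz2⟩
      have hcv : c ≠ v := fun hh => huv (hh ▸ hc.1)
      have h3 : ρ c ≠ ρ v := fun hh => hcv (hinj hh)
      have h4 := mono _ _ hc.1
      have h1 := h.sa u v c hi hMuv hW (Or.inl ((hM _ _).2 (by omega)))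
      push Not at h1
      obtain ⟨z', h5, h6, h7⟩ := h1
      obtain ⟨d, hd1, _, hdA⟩ := exZ z' ⟨h5, h6⟩
      have := two (A k) c d (fun hh => h7 (hh ▸ hd1)) hcA hdA
      omega
    by_cases hZ : ∀ z, u < z → v < z
    · have h0 := h.sb u v u hi hMuv hZ (Or.inr rfl)
      push Not at h0
      obtain ⟨z, hz1, hz2, _⟩ := h0
      obtain ⟨c, _, hc, hcB⟩ := exW z ⟨hz1, hz2⟩
      have hcv : c ≠ u := fun hh => huv (hh ▸ hc.1)
      have h3 : ρ c ≠ ρ u := fun hh => hcv (hinj hh)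
      have h4 := mono _ _ hc.1
      have h1 := h.sb u v c hi hMuv hZ (Or.inl ((hM _ _).2 (by omega)))
      push Not at h1
      obtain ⟨z', h5, h6, h7⟩ := h1
      obtain ⟨d, hd1, _, hdB⟩ := exW z' ⟨h5, h6⟩
      have := two (B k) c d (fun hh => h7 (hh ▸ hd1)) hcB hdB
      omega
    push Not at hW hZ
    obtain ⟨w, hw⟩ := hW
    obtain ⟨z, hz⟩ := hZ
    obtain ⟨c, _, _, hcA⟩ := exZ z hz
    obtain ⟨d, _, _, hdB⟩ := exW w hw
    have h1 := one (A k) c hcA
    have h2 := one (B k) d hdB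
    omega
  have strict : 2 < (A (ρ a)).card + (B (ρ a)).card +
      ((if ρ a = 0 then 1 else 0) + if ρ a = n then 1 else 0) := by
    have y1 : ∀ s, s < y → ρ s < ρ a := by
      intro s hs
      by_contra hc
      have hsa : s ≠ a := fun hh => hy.1 (hh ▸ hs.le)
      have h3 : ρ s ≠ ρ a := fun hh => hsa (hinj hh)
      have i1 : Inc a s := ⟨fun hh => hy.1 (hh.trans hs.le),
        fun hh => by have := mono' _ _ hh; omega⟩
      have := hymin s i1
      have := mono s y hs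
      omega
    by_cases hk0 : ρ a = 0
    · have := two (A (ρ a)) a y hy.ne ((mA _ _).2 ⟨fun s hs => mono s a hs, Or.inl hk0⟩)
        ((mA _ _).2 ⟨y1, Or.inl hk0⟩)
      rw [if_pos hk0]
      omega
    obtain ⟨u, hu⟩ := hsurj (ρ a - 1) (by have := hlt a; omega)
    have cmp : ∀ t, ρ a ≤ ρ t → u < t := by
      intro t ht
      by_contra hc
      have i1 : Inc u t := ⟨fun hh => hc (lt_of_le_of_ne hh (by rintro rfl; omega)),
        fun hh => by have := mono' _ _ hh; omega⟩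
      have := hamin u ⟨t, i1⟩
      omega
    have h1 := two (A (ρ a)) a y hy.ne
      ((mA _ _).2 ⟨fun s hs => mono s a hs, Or.inr ⟨u, cmp a le_rfl, by omega⟩⟩)
      ((mA _ _).2 ⟨y1, Or.inr ⟨u, cmp y hay.le, by omega⟩⟩)
    have h2 := one (B (ρ a)) u ((mB _ _).2
      ⟨fun t ht => by have := mono u t ht; omega, Or.inr ⟨a, cmp a le_rfl, rfl⟩⟩)
    omega
  have hsum := sum_lt_sum base ⟨ρ a, mem_range.2 (by have := hlt a; omega), strict⟩
  rw [sum_add_distrib, sum_add_distrib, sum_add_distrib] at hsum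
  simp only [sum_const, card_range, smul_eq_mul, sum_ite_eq', mem_range] at hsum
  rw [if_pos (by omega), if_pos (by omega)] at hsum
  omega

end Pool.Agent.FS.LightPairs
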