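import Mathlib

namespace Pool.Agent.FS.LightPairs

/-- Incomparable elements of a poset. -/
def Inc {X : Type} [PartialOrder X] (x y : X) : Prop := ¬ x ≤ y ∧ ¬ y ≤ x

/-- The ordered pair `(p, q)` is light: everything above `p` is above `q` and the elements below
`q` that are not below `p` form a chain, or everything below `q` is below `p` and the elements
above `p` that are not above `q` form a chain (the empty set is a chain). -/
def Light {X : Type} [PartialOrder X] (p q : X) : Prop :=
  ((∀ z, p < z → q < z) ∧ IsChain (· ≤ ·) {w | w < q ∧ ¬ w < p}) ∨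
    ((∀ w, w < q → w < p) ∧ IsChain (· ≤ ·) {z | p < z ∧ ¬ q < z})

end Pool.Agent.FS.LightPairs
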