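import Pool.Agent.FS.LightPairs.Defs

/-! The majority order of a finite poset without a balanced pair, and the swap lemmas. -/

namespace Pool.Agent.FS.LightPairs

open Set

/-- The number of linear extensions. -/
noncomputable def e (X Y : Type) [PartialOrder X] [LinearOrder Y] : ℕ :=
  {f : X ≃ Y | StrictMono (⇑f)}.ncard

/-- The number of linear extensions placing `x` below `y`. -/
noncomputable def N {X : Type} (Y : Type) [PartialOrder X] [LinearOrder Y] (x y : X) : ℕ :=
  {f : X ≃ Y | StrictMono (⇑f) ∧ f x < f y}.ncard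

variable {X Y : Type} [Finite X] [PartialOrder X] [LinearOrder Y]

omit [Finite X] in
theorem Inc.ne {x y : X} (h : Inc x y) : x ≠ y := fun hxy => h.1 hxy.le

omit [Finite X] in
theorem Inc.symm {x y : X} (h : Inc x y) : Inc y x := ⟨h.2, h.1⟩

theorem N_add {x y : X} (h : x ≠ y) : N Y x y + N Y y x = e X Y := by
  unfold N e
  rw [← ncard_union_eq]
  · congr 1
    ext f
    simp only [mem_union, mem_ofPred_eq]
    constructor
    · rintro (h | h) <;> exact h.1
    · intro hf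
      rcases lt_or_gt_of_ne (fun hh => h (f.injective hh)) with h1 | h1
      · exact Or.inl ⟨hf, h1⟩
      · exact Or.inr ⟨hf, h1⟩
  · rw [Set.disjoint_left]
    rintro f ⟨_, h1⟩ ⟨_, h2⟩
    exact lt_asymm h1 h2

omit [Finite X] in
theorem N_self (x : X) : N Y x x = 0 := by
  unfold N
  simp

omit [Finite X] in
theorem N_of_lt {x y : X} (h : x < y) : N Y x y = e X Y := by
  unfold N e
  congr 1
  ext f
  exact ⟨fun hf => hf.1, fun hf => ⟨hf, hf h⟩⟩

theorem N_tri (x y z : X) : N Y z x ≤ N Y y x + N Y z y := by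
  unfold N
  refine le_trans (ncard_le_ncard ?_ (toFinite _)) (ncard_union_le _ _)
  rintro f ⟨hf, h⟩
  by_cases h1 : f y < f x
  · exact Or.inl ⟨hf, h1⟩
  · exact Or.inr ⟨hf, lt_of_lt_of_le h (not_lt.1 h1)⟩

open Classical in
omit [Finite X] in
theorem swap_mono {f : X ≃ Y} (hf : StrictMono (⇑f)) {p q : X} (h : Inc p q) (hpq : f p < f q)
    (hw : ∀ w, w < q → f w < f p) (hz : ∀ z, p < z → f q < f z) :
    StrictMono (⇑((Equiv.swap p q).trans f)) := by
  intro s t hst
  simp only [Equiv.trans_apply]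
  by_cases hsp : s = p
  · subst hsp
    have htq : t ≠ q := fun hh => h.1 (hh ▸ hst.le)
    rw [Equiv.swap_apply_left, Equiv.swap_apply_of_ne_of_ne hst.ne' htq]
    exact hz t hst
  by_cases hsq : s = q
  · subst hsq
    have htp : t ≠ p := fun hh => h.2 (hh ▸ hst.le)
    rw [Equiv.swap_apply_right, Equiv.swap_apply_of_ne_of_ne htp hst.ne']
    exact hpq.trans (hf hst)
  rw [Equiv.swap_apply_of_ne_of_ne hsp hsq]
  by_cases htp : t = p
  · subst htp
    rw [Equiv.swap_apply_left]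
    exact (hf hst).trans hpq
  by_cases htq : t = q
  · subst htq
    rw [Equiv.swap_apply_right]
    exact hw s hst
  rw [Equiv.swap_apply_of_ne_of_ne htp htq]
  exact hf hst

open Classical in
theorem swap_le (p q : X) (S T : Set (X ≃ Y)) (h : ∀ f ∈ S, (Equiv.swap p q).trans f ∈ T) :
    S.ncard ≤ T.ncard := by
  refine ncard_le_ncard_of_injOn (fun f => (Equiv.swap p q).trans f) h ?_ (toFinite T)
  intro f _ g _ hfg
  ext x
  have := congrArg (fun k : X ≃ Y => k (Equiv.swap p q x)) hfg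
  simpa using this

/-- If everything above `p` is above `q` and everything below `q` is below `p` or at most `w₀`,
then an extension with `p` before `q` can be swapped or has `p` before `w₀`. -/
theorem one_event {p q : X} (h : Inc p q) (hU : ∀ z, p < z → q < z) (w₀ : X)
    (ha : ∀ w, w < q → w < p ∨ w ≤ w₀) : N Y p q ≤ N Y q p + N Y p w₀ := by
  classical
  set S1 : Set (X ≃ Y) := {f | StrictMono (⇑f) ∧ f p < f q ∧ ∀ w, w < q → f w < f p} with hS1
  have h1 : S1.ncard ≤ N Y q p := by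
    refine swap_le p q _ _ ?_
    rintro f ⟨hf, hpq, hw⟩
    refine ⟨swap_mono hf h hpq hw fun z hz => hf (hU z hz), ?_⟩
    simpa using hpq
  have h3 : N Y p q ≤ S1.ncard + N Y p w₀ := by
    refine le_trans (ncard_le_ncard ?_ (toFinite _)) (ncard_union_le _ _)
    rintro f ⟨hf, hpq⟩
    by_cases h4 : ∀ w, w < q → f w < f p
    · exact Or.inl ⟨hf, hpq, h4⟩
    · push Not at h4
      obtain ⟨w, hwq, hw⟩ := h4
      have hne : p ≠ w := fun hh => h.1 (hh ▸ hwq.le)
      have hlt : f p < f w := lt_of_le_of_ne hw fun hh => hne (f.injective hh)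
      rcases ha w hwq with h5 | h5
      · exact absurd (hf h5) (not_lt.2 hw)
      · exact Or.inr ⟨hf, hlt.trans_le (hf.monotone h5)⟩
  omega

omit [Finite X] in
theorem N_dual (x y : X) :
    N (X := Xᵒᵈ) Yᵒᵈ (OrderDual.toDual x) (OrderDual.toDual y) = N Y y x := by
  unfold N
  exact congrArg Set.ncard (Set.ext fun f =>
    ⟨fun h => ⟨fun _ _ hab => h.1 hab, h.2⟩, fun h => ⟨fun _ _ hab => h.1 hab, h.2⟩⟩)

theorem one_event' {p q : X} (h : Inc p q) (hD : ∀ w, w < q → w < p) (z₀ : X)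
    (hb : ∀ z, p < z → q < z ∨ z₀ ≤ z) : N Y p q ≤ N Y q p + N Y z₀ q := by
  have := one_event (X := Xᵒᵈ) (Y := Yᵒᵈ) (p := OrderDual.toDual q) (q := OrderDual.toDual p)
    ⟨h.1, h.2⟩ hD (OrderDual.toDual z₀) hb
  rwa [N_dual, N_dual, N_dual] at this

/-- What is used of the majority order. -/
structure Maj {X : Type} [PartialOrder X] (M : X → X → Prop) : Prop where
  irrefl : ∀ x, ¬ M x x
  trans : ∀ x y z, M x y → M y z → M x z
  total : ∀ x y, x ≠ y → M x y ∨ M y x
  ext : ∀ x y, x < y → M x y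
  sb : ∀ p q w₀, Inc p q → M p q → (∀ z, p < z → q < z) → (M w₀ p ∨ w₀ = p) →
    ¬ ∀ w, w < q → w < p ∨ w ≤ w₀
  sa : ∀ p q z₀, Inc p q → M p q → (∀ w, w < q → w < p) → (M q z₀ ∨ z₀ = q) →
    ¬ ∀ z, p < z → q < z ∨ z₀ ≤ z

theorem maj (he : 0 < e X Y)
    (h : ∀ x y : X, x ≠ y → 3 * N Y x y < e X Y ∨ 2 * e X Y < 3 * N Y x y) :
    Maj (fun x y : X => 2 * e X Y < 3 * N Y x y) := by
  have irr : ∀ x : X, ¬ 2 * e X Y < 3 * N Y x x := fun x => by rw [N_self]; omega
  have hne : ∀ x y : X, 2 * e X Y < 3 * N Y x y → x ≠ y := fun x y hxy hh => irr x (hh ▸ hxy)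
  refine ⟨irr, ?_, ?_, ?_, ?_, ?_⟩
  · intro x y z hxy hyz
    have h1 := N_add (Y := Y) (hne _ _ hxy)
    have h2 := N_add (Y := Y) (hne _ _ hyz)
    have hxz : x ≠ z := by
      rintro rfl
      omega
    have h3 := N_add (Y := Y) hxz
    have h4 := N_tri (Y := Y) x y z
    rcases h x z hxz with h5 | h5 <;> omega
  · intro x y hxy
    have h1 := N_add (Y := Y) hxy
    rcases h x y hxy with h5 | h5 <;> omega
  · intro x y hxy
    rw [N_of_lt hxy]
    omega
  · intro p q w hi hM hU hw ha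
    have h1 := N_add (Y := Y) hi.ne
    have h2 := one_event (Y := Y) hi hU w ha
    rcases hw with hw | rfl
    · have h3 := N_add (Y := Y) (hne _ _ hw)
      omega
    · rw [N_self] at h2
      omega
  · intro p q z hi hM hD hz hb
    have h1 := N_add (Y := Y) hi.ne
    have h2 := one_event' (Y := Y) hi hD z hb
    rcases hz with hz | rfl
    · have h3 := N_add (Y := Y) (hne _ _ hz)
      omega
    · rw [N_self] at h2
      omega

theorem e_pos (X : Type) [Fintype X] [PartialOrder X] : 0 < e X (Fin (Fintype.card X)) := by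
  classical
  unfold e
  rw [ncard_pos (toFinite _)]
  letI : Fintype (LinearExtension X) := ‹Fintype X›
  let g : LinearExtension X ≃o Fin (Fintype.card X) := (monoEquivOfFin (LinearExtension X) rfl).symm
  let f : X ≃ Fin (Fintype.card X) := (Equiv.refl X : X ≃ LinearExtension X).trans g.toEquiv
  refine ⟨f, Monotone.strictMono_of_injective (fun a b hab => ?_) f.injective⟩
  exact g.monotone (toLinearExtension.monotone hab)

omit [Finite X] in
theorem Maj.dual {M : X → X → Prop} (h : Maj M) :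
    Maj (X := Xᵒᵈ) (fun x y => M (OrderDual.ofDual y) (OrderDual.ofDual x)) :=
  ⟨fun x => h.irrefl _, fun x y z h1 h2 => h.trans _ _ _ h2 h1,
    fun x y hxy => (h.total (OrderDual.ofDual y) (OrderDual.ofDual x) (Ne.symm hxy)),
    fun x y hxy => h.ext _ _ hxy,
    fun p q w hi hM hU hw => h.sa _ _ (OrderDual.ofDual w) ⟨hi.1, hi.2⟩ hM hU hw,
    fun p q w hi hM hU hw => h.sb _ _ (OrderDual.ofDual w) ⟨hi.1, hi.2⟩ hM hU hw⟩

theorem Maj.chain {M : X → X → Prop} (h : Maj M) {p q : X} (hi : Inc p q)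
    (hU : ∀ z, p < z → q < z) (hc : IsChain (· ≤ ·) {w | w < q ∧ ¬ w < p}) : ¬ M p q := by
  intro hM
  obtain ⟨c, ⟨⟨hcq, hcp⟩, hMc⟩, hmin⟩ := (wellFounded_lt (α := X)).has_min
    {c | (c ≤ q ∧ ¬ c < p) ∧ M p c} ⟨q, ⟨le_rfl, fun hh => hi.2 hh.le⟩, hM⟩
  have ic : Inc p c := ⟨fun hh => hi.1 (hh.trans hcq),
    fun hh => hcp (lt_of_le_of_ne hh fun h1 => hi.1 (h1 ▸ hcq))⟩
  have hUc : ∀ z, p < z → c < z := fun z hz => lt_of_le_of_lt hcq (hU z hz)
  by_cases hex : ∃ w, w < c ∧ ¬ w < p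
  · obtain ⟨d, ⟨hdc, hdp⟩, hmax⟩ := (wellFounded_gt (α := X)).has_min
      {w | w < c ∧ ¬ w < p} hex
    have hdq : d < q := lt_of_lt_of_le hdc hcq
    have hne : d ≠ p := fun h1 => hi.1 (h1 ▸ hdq.le)
    have hMd : M d p := (h.total d p hne).resolve_right fun h1 =>
      hmin d ⟨⟨hdq.le, hdp⟩, h1⟩ hdc
    refine h.sb p c d ic hMc hUc (Or.inl hMd) fun w hw => ?_
    by_cases hwp : w < p
    · exact Or.inl hwp
    · right
      by_cases hwd : w = d
      · exact hwd.le
      · rcases hc (show w ∈ {w | w < q ∧ ¬ w < p} from ⟨lt_of_lt_of_le hw hcq, hwp⟩)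
          (show d ∈ {w | w < q ∧ ¬ w < p} from ⟨hdq, hdp⟩) hwd with h1 | h1
        · exact h1
        · exact absurd (lt_of_le_of_ne h1 (Ne.symm hwd)) (hmax w ⟨hw, hwp⟩)
  · refine h.sb p c p ic hMc hUc (Or.inr rfl) fun w hw => Or.inl ?_
    by_contra hh
    exact hex ⟨w, hw, hh⟩

theorem Maj.light {M : X → X → Prop} (h : Maj M) {p q : X} (hi : Inc p q) (hl : Light p q) :
    ¬ M p q := by
  rcases hl with ⟨h1, h2⟩ | ⟨h1, h2⟩
  · exact h.chain hi h1 h2
  · exact h.dual.chain (p := OrderDual.toDual q) (q := OrderDual.toDual p) ⟨hi.1, hi.2⟩ h1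
      fun a ha b hb hab => (h2 ha hb hab).symm

end Pool.Agent.FS.LightPairs
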